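import Pool.Agent.Helper57.QZ.Stmts

/-! Row RM of the sheet QZ (MP_818aa8): the random model. -/

set_option autoImplicit false

namespace Pool.Agent.Helper57.QZ

open MeasureTheory Set Filter Topology

theorem SRM.exp_four : Real.exp (-4) ≤ 1 / 32 := by
  rw [Real.exp_neg, ← one_div]
  refine one_div_le_one_div_of_le (by norm_num) ?_
  have h1 : (2.7 : ℝ) ≤ Real.exp 1 := by
    have := Real.exp_one_gt_d9
    linarith
  have h2 : Real.exp 4 = Real.exp 1 ^ 4 := by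
    rw [← Real.exp_nat_mul]
    norm_num
  rw [h2]
  calc (32 : ℝ) ≤ 2.7 ^ 4 := by norm_num
    _ ≤ Real.exp 1 ^ 4 := pow_le_pow_left₀ (by norm_num) h1 4

theorem rm_of (h1 : ST_LO) (h2 : ST_UV) (h3 : ST_US) (h4 : ST_PR2) (h5 : ST_DT1) (h6 : ST_DT2)
    (h7 : ST_LL) (h8 : ST_SM5) : ST_RM := by
  intro ε hε η hη
  obtain ⟨hη0, hη1⟩ := hη
  obtain ⟨cu, zu, hcu, hU⟩ := h2 ε hε (η / 2) ⟨by linarith, by linarith⟩
  obtain ⟨e1, he1⟩ : ∃ e1 : ℝ, e1 = min (cu / 2) (η / 8) := ⟨_, rfl⟩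
  have he0 : 0 < e1 := by
    rw [he1]
    exact lt_min (by linarith) (by linarith)
  have he2 : e1 ≤ cu / 2 := by
    rw [he1]
    exact min_le_left _ _
  have he3 : e1 ≤ η / 8 := by
    rw [he1]
    exact min_le_right _ _
  obtain ⟨zl, hL⟩ := h1 ε hε e1 ⟨he0, by linarith⟩
  obtain ⟨Cd0, hD0⟩ := h6 ε hε.1
  obtain ⟨Cd, hCd⟩ : ∃ Cd : ℝ, Cd = max Cd0 0 := ⟨_, rfl⟩
  have hCd0 : 0 ≤ Cd := by
    rw [hCd]
    exact le_max_right _ _
  have hD : ∀ (y : ℕ) (σ : ℝ) (φ : Pr y → ℝ), 1 / 2 + ε ≤ σ → ‖Wy y σ φ + Vy y σ φ‖ ≤ Cd := by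
    intro y σ φ h
    rw [hCd]
    exact (hD0 y σ φ h).trans (le_max_left _ _)
  obtain ⟨Cl0, hLL0⟩ := h7 ε hε
  obtain ⟨Cl, hCl⟩ : ∃ Cl : ℝ, Cl = max Cl0 0 := ⟨_, rfl⟩
  have hCl0 : 0 ≤ Cl := by
    rw [hCl]
    exact le_max_right _ _
  have hCl1 : Cl0 ≤ Cl := by
    rw [hCl]
    exact le_max_left _ _
  obtain ⟨cs, zs, hzs3, hcs, hS⟩ := h8
  obtain ⟨M, hM⟩ : ∃ M : ℝ, M = max (1 / η) (2 * Cd / η) := ⟨_, rfl⟩
  have hM1 : 1 / η ≤ M := by
    rw [hM]
    exact le_max_left _ _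
  have hM2 : 2 * Cd / η ≤ M := by
    rw [hM]
    exact le_max_right _ _
  obtain ⟨S, hSd⟩ : ∃ S : ℝ, S = 1 + |zu| + |zl| + |zs| + 16 / η + 8 / cu + Real.exp (M / cs) :=
    ⟨_, rfl⟩
  have q1 := abs_nonneg zu
  have q2 := abs_nonneg zl
  have q3 := abs_nonneg zs
  have q4 : 0 < 16 / η := by positivity
  have q5 : 0 < 8 / cu := by positivity
  have q6 := Real.exp_pos (M / cs)
  have q7 := le_abs_self zu
  have q8 := le_abs_self zl
  have q9 := le_abs_self zs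
  have hS1 : 1 ≤ S := by linarith
  have hX0 : 0 ≤ Cl * S ^ 2 := mul_nonneg hCl0 (sq_nonneg _)
  refine ⟨4 * Real.exp (Cl * S ^ 2 + S + 1), ?_, fun N hN => ?_⟩
  · have := Real.add_one_le_exp (Cl * S ^ 2 + S + 1)
    linarith
  have hNpos : 0 < N := lt_of_lt_of_le (by positivity) hN
  obtain ⟨L, hLd⟩ : ∃ L : ℝ, L = Real.log (N / 4) := ⟨_, rfl⟩
  have hLbig : Cl * S ^ 2 + S + 1 ≤ L := by
    rw [hLd, Real.le_log_iff_exp_le (by positivity)]
    linarith
  have hexpL : Real.exp (-L) = 4 / N := by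
    rw [Real.exp_neg, hLd, Real.exp_log (by positivity), inv_div]
  have hL0 : 0 < L := by linarith
  refine ⟨⌈(L / e1) ^ 2⌉₊, fun y hy σ hσ => ?_⟩
  have hσ0 : 1 / 2 ≤ σ := by linarith [hσ.1, hε.1]
  have hσ1 : 0 < σ := by linarith
  obtain ⟨hc, hl0, hl⟩ := hLL0 y σ hσ
  have hLe : 0 ≤ L / e1 := by positivity
  obtain ⟨s, hs, hsL⟩ : ∃ s ∈ Icc (0 : ℝ) (L / e1), Ly y σ s + s * e1 = L := by
    have hcont : ContinuousOn (fun s : ℝ => Ly y σ s + s * e1) (Icc 0 (L / e1)) :=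
      (hc.add (continuous_id.mul continuous_const)).continuousOn
    have hI := intermediate_value_Icc hLe hcont
    have hmem : L ∈ Icc (Ly y σ 0 + 0 * e1) (Ly y σ (L / e1) + (L / e1) * e1) := by
      refine ⟨?_, ?_⟩
      · rw [hl0]
        linarith
      · rw [div_mul_cancel₀ _ he0.ne']
        linarith [(hl (L / e1) hLe).1]
    exact hI hmem
  have hsS : S ≤ s := by
    by_contra h
    push Not at h
    have g1 := (hl s hs.1).2.1
    have g2 : Cl0 * s ^ 2 ≤ Cl * S ^ 2 := by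
      have g3 : s ^ 2 ≤ S ^ 2 := pow_le_pow_left₀ hs.1 h.le 2
      calc Cl0 * s ^ 2 ≤ Cl * s ^ 2 := mul_le_mul_of_nonneg_right hCl1 (sq_nonneg _)
        _ ≤ Cl * S ^ 2 := mul_le_mul_of_nonneg_left g3 hCl0
    have g4 : s * e1 ≤ s * 1 := mul_le_mul_of_nonneg_left (by linarith) hs.1
    linarith
  have hs1 : 1 ≤ s := hS1.trans hsS
  have hs0 : 0 ≤ s := hs.1
  obtain ⟨z, hz⟩ : ∃ z : ℝ, z = s ^ σ⁻¹ := ⟨_, rfl⟩
  have hzσ : z ^ σ = s := by
    rw [hz]
    exact Real.rpow_inv_rpow hs0 hσ1.ne'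
  have hz1 : s ≤ z := by
    have := Real.rpow_le_rpow_of_exponent_le hs1 ((one_le_inv₀ hσ1).2 hσ.2)
    rwa [Real.rpow_one, ← hz] at this
  have hz2 : z ≤ s ^ 2 := by
    have hi : σ⁻¹ ≤ 2 := by
      rw [inv_le_comm₀ hσ1 (by norm_num)]
      linarith
    have := Real.rpow_le_rpow_of_exponent_le hs1 hi
    rw [← hz] at this
    calc z ≤ s ^ (2 : ℝ) := this
      _ = s ^ 2 := by norm_num
  have hzy : z ≤ (y : ℝ) := by
    have g1 : s ^ 2 ≤ (L / e1) ^ 2 := pow_le_pow_left₀ hs0 hs.2 2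
    have g2 : (L / e1) ^ 2 ≤ (⌈(L / e1) ^ 2⌉₊ : ℝ) := Nat.le_ceil _
    have g3 : (⌈(L / e1) ^ 2⌉₊ : ℝ) ≤ (y : ℝ) := by exact_mod_cast hy
    linarith
  have hLO := hL y σ z hσ (by linarith) hzy
  have hUV := hU y σ z hσ (by linarith) hzy
  have hSM := hS y σ z ⟨hσ0, hσ.2⟩ (by linarith) hzy
  rw [hzσ] at hLO hUV hSM
  -- the size of `B`
  have hBM : M ≤ omy y σ s := by
    have g1 : M / cs ≤ Real.log z := by
      rw [Real.le_log_iff_exp_le (by linarith)]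
      linarith
    have g2 : 0 ≤ z ^ (1 - σ) := Real.rpow_nonneg (by linarith) _
    have g3 : cs * (M / cs) ≤ cs * (Real.log z + z ^ (1 - σ)) :=
      mul_le_mul_of_nonneg_left (by linarith) hcs.le
    rw [mul_div_cancel₀ _ hcs.ne'] at g3
    linarith
  obtain ⟨B, hB⟩ : ∃ B : ℝ, B = omy y σ s := ⟨_, rfl⟩
  rw [← hB] at hLO hUV hBM
  have hBd : Cd ≤ η / 2 * B := by
    have g1 : 2 * Cd / η ≤ B := hM2.trans hBM
    rw [div_le_iff₀ hη0] at g1
    linarith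
  have hB0 : 0 ≤ B := by
    have : 0 < 1 / η := by positivity
    linarith
  have hηB : 0 ≤ η * B := mul_nonneg hη0.le hB0
  have heB : e1 * B ≤ η / 8 * B := mul_le_mul_of_nonneg_right he3 hB0
  obtain ⟨m, hm⟩ : ∃ m : ℝ, m = muy y σ s := ⟨_, rfl⟩
  have hm0 : 0 ≤ m := by
    rw [hm]
    exact (hl s hs0).2.2
  rw [← hm] at hLO
  -- the lower bound of the probability
  have hP : 2 / N ≤ (1 / 2) * Real.exp (-(Ly y σ s) - s * e1) := by
    have : -(Ly y σ s) - s * e1 = -L := by linarith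
    rw [this, hexpL]
    apply le_of_eq
    ring
  have hLO' := hP.trans hLO
  have hsmall : ∀ t : ℝ, 4 ≤ t → 4 / N * Real.exp (-t) ≤ 1 / (8 * N) := by
    intro t ht
    have g1 : Real.exp (-t) ≤ 1 / 32 :=
      (Real.exp_le_exp.2 (by linarith)).trans SRM.exp_four
    calc 4 / N * Real.exp (-t) ≤ 4 / N * (1 / 32) :=
          mul_le_mul_of_nonneg_left g1 (by positivity)
      _ = 1 / (8 * N) := by
          field_simp
          norm_num
  have hK : 0 ≤ Ky y σ := (h5 y σ (fun _ => 0) hσ0).2.2.2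
  refine ⟨Real.exp (m + Ky y σ), B, ?_, hM1.trans hBM, ?_, ?_, ?_, ?_⟩
  · exact Real.one_le_exp (by linarith)
  · -- (1)
    refine hLO'.trans (measureReal_mono ?_ (measure_ne_top _ _))
    rintro φ ⟨a1, a2, a3⟩
    obtain ⟨b1, b2, b3, b4⟩ := h5 y σ φ hσ0
    refine ⟨?_, ?_⟩
    · have g1 : 0 < ‖Zy y σ φ‖ := norm_pos_iff.2 b1
      have g2 : Real.exp (m + Ky y σ - 2 * e1) ≤ ‖Zy y σ φ‖ := by
        rw [← Real.le_log_iff_exp_le g1]
        linarith
      refine le_trans ?_ g2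
      have e9 : Real.exp (m + Ky y σ - 2 * e1) = Real.exp (-(2 * e1)) * Real.exp (m + Ky y σ) := by
        rw [← Real.exp_add]
        congr 1
        ring
      rw [e9]
      refine mul_le_mul_of_nonneg_right ?_ (Real.exp_pos _).le
      have := Real.add_one_le_exp (-(2 * e1))
      linarith
    · have g1 : ‖Vy y σ φ‖ ≤ ‖Wy y σ φ‖ + ‖Wy y σ φ + Vy y σ φ‖ := by
        have : Vy y σ φ = (Wy y σ φ + Vy y σ φ) - Wy y σ φ := by ring
        calc ‖Vy y σ φ‖ = ‖(Wy y σ φ + Vy y σ φ) - Wy y σ φ‖ := by rw [← this]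
          _ ≤ ‖Wy y σ φ + Vy y σ φ‖ + ‖Wy y σ φ‖ := norm_sub_le _ _
          _ = _ := add_comm _ _
      have g2 := hD y σ φ hσ.1
      have g3 : (Vy y σ φ).re ≤ ‖Vy y σ φ‖ := Complex.re_le_norm _
      linarith
  · -- (2)
    have g0 : {φ : Pr y → ℝ | (1 + η) * Real.exp (m + Ky y σ) ≤ ‖Zy y σ φ‖} ⊆
        {φ | muy y σ s + η / 2 ≤ Sy y σ φ} := by
      intro φ hφ
      obtain ⟨b1, b2, b3, b4⟩ := h5 y σ φ hσ0
      simp only [mem_ofPred_eq] at hφ ⊢
      have g1 := Real.log_le_log (by positivity) hφ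
      rw [Real.log_mul (by positivity) (Real.exp_pos _).ne', Real.log_exp] at g1
      have g2 := Real.one_sub_inv_le_log_of_pos (show 0 < 1 + η by linarith)
      have g3 : η / 2 ≤ 1 - (1 + η)⁻¹ := by
        have : 1 - (1 + η)⁻¹ = η / (1 + η) := by
          field_simp
          ring
        rw [this, div_le_div_iff_of_pos_left hη0 (by norm_num) (by linarith)]
        linarith
      rw [← hm]
      linarith
    refine (measureReal_mono g0 (measure_ne_top _ _)).trans ((h3 y σ s (η / 2) hs0).trans ?_)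
    have g4 : -(Ly y σ s) - s * (η / 2) = -L + -(s * (η / 2 - e1)) := by
      rw [← hsL]
      ring
    rw [g4, Real.exp_add, hexpL]
    refine hsmall _ ?_
    have g5 : 16 / η ≤ s := by linarith
    rw [div_le_iff₀ hη0] at g5
    have g6 : s * (3 * η / 8) ≤ s * (η / 2 - e1) := mul_le_mul_of_nonneg_left (by linarith) hs0
    linarith
  · -- (3)
    have g0 : {φ : Pr y → ℝ | (1 + η) * B ≤ ‖Wy y σ φ‖} ⊆
        {φ | (1 + η / 2) * B ≤ ‖Vy y σ φ‖} := by
      intro φ hφ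
      simp only [mem_ofPred_eq] at hφ ⊢
      have g1 : ‖Wy y σ φ‖ ≤ ‖Wy y σ φ + Vy y σ φ‖ + ‖Vy y σ φ‖ := by
        have : Wy y σ φ = (Wy y σ φ + Vy y σ φ) - Vy y σ φ := by ring
        calc ‖Wy y σ φ‖ = ‖(Wy y σ φ + Vy y σ φ) - Vy y σ φ‖ := by rw [← this]
          _ ≤ _ := norm_sub_le _ _
      have g2 := hD y σ φ hσ.1
      linarith
    refine (measureReal_mono g0 (measure_ne_top _ _)).trans (hUV.trans ?_)
    have g4 : -(Ly y σ s) - cu * s = -L + -((cu - e1) * s) := by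
      rw [← hsL]
      ring
    rw [g4, Real.exp_add, hexpL]
    refine hsmall _ ?_
    have g5 : 8 / cu ≤ s := by linarith
    rw [div_le_iff₀ hcu] at g5
    have g6 : cu / 2 * s ≤ (cu - e1) * s := mul_le_mul_of_nonneg_right (by linarith) hs0
    linarith
  · -- (4)
    intro θ
    have g0 : {φ : Pr y → ℝ | (1 - e1) * B ≤
        (Complex.exp (-(((θ + Real.pi : ℝ) : ℂ) * Complex.I)) * Vy y σ φ).re} ⊆
        {φ | (1 - η) * B ≤ (Complex.exp (-((θ : ℂ) * Complex.I)) * Wy y σ φ).re} := by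
      intro φ hφ
      simp only [mem_ofPred_eq] at hφ ⊢
      have e0 : Complex.exp (-(((θ + Real.pi : ℝ) : ℂ) * Complex.I)) =
          -Complex.exp (-((θ : ℂ) * Complex.I)) := by
        have : -(((θ + Real.pi : ℝ) : ℂ) * Complex.I) =
            -((θ : ℂ) * Complex.I) - Real.pi * Complex.I := by
          push_cast
          ring
        rw [this, Complex.exp_sub, Complex.exp_pi_mul_I]
        ring
      rw [e0] at hφ
      obtain ⟨u, hu⟩ : ∃ u : ℂ, u = Complex.exp (-((θ : ℂ) * Complex.I)) := ⟨_, rfl⟩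
      rw [← hu] at hφ ⊢
      have hun : ‖u‖ = 1 := by
        rw [hu, ← neg_mul, ← Complex.ofReal_neg]
        exact Complex.norm_exp_ofReal_mul_I _
      have e2 : u * Wy y σ φ = u * (Wy y σ φ + Vy y σ φ) + -u * Vy y σ φ := by ring
      have e3 : -Cd ≤ (u * (Wy y σ φ + Vy y σ φ)).re := by
        have g1 : |(u * (Wy y σ φ + Vy y σ φ)).re| ≤ ‖u * (Wy y σ φ + Vy y σ φ)‖ :=
          Complex.abs_re_le_norm _
        rw [norm_mul, hun, one_mul] at g1
        have g2 := hD y σ φ hσ.1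
        have g3 := neg_abs_le (u * (Wy y σ φ + Vy y σ φ)).re
        linarith
      rw [e2, Complex.add_re]
      linarith
    have g1 : 2 / N ≤ (tor y).real {φ | (1 - e1) * B ≤
        (Complex.exp (-(((θ + Real.pi : ℝ) : ℂ) * Complex.I)) * Vy y σ φ).re} := by
      rw [h4 y σ (θ + Real.pi) ((1 - e1) * B)]
      refine hLO'.trans (measureReal_mono ?_ (measure_ne_top _ _))
      rintro φ ⟨a1, a2, a3⟩
      exact a3
    exact g1.trans (measureReal_mono g0 (measure_ne_top _ _))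

end Pool.Agent.Helper57.QZ
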